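import Pool.Agent.H83.KH.Main
import Pool.Agent.H83.Dim.DgDb
import Pool.Agent.H80.HD.Ds

/-! # Homological dimensions of `B(H)` (MP_216d05_an, Q2)

For every infinite-dimensional complex Hilbert space `H`, `2 ≤ ds B(H)` and
`dg B(H) = db B(H) = ∞`. In particular all three numbers exceed `1`. (helper80 and helper83)

Definitions are in `Pool/Agent/H83/Dim/Stmt.lean` (modules, resolutions, dimensions). -/

namespace Pool.Agent.Results.MP_216d05_an.BoundedOperators

open Pool.Agent.H83 Pool.Agent.H83.KH

universe u

/-- For every infinite-dimensional complex Hilbert space `H`, the small dimension of the Banach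
algebra of all bounded operators on `H` is at least `2`, and its left global dimension and its
bidimension are infinite. -/
theorem result (H : Type u) [NormedAddCommGroup H] [InnerProductSpace ℂ H] [CompleteSpace H]
    (hH : ¬ FiniteDimensional ℂ H) :
    2 ≤ HD.ds (H →L[ℂ] H) ∧ HD.dg (H →L[ℂ] H) = ⊤ ∧ HD.db (H →L[ℂ] H) = ⊤ :=
  ⟨Pool.Agent.H80.HD.two_le_ds hH, dg_bounded hH,
    top_le_iff.1 ((dg_bounded hH).ge.trans (HD.dg_le_db (H →L[ℂ] H)))⟩

end Pool.Agent.Results.MP_216d05_an.BoundedOperators
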