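import Pool.Agent.H83.KH.Main
import Pool.Agent.H83.Dim.DgDb

/-! # Homological dimensions of `K(H)` (MP_216d05_an, Q1)

For every infinite-dimensional complex Hilbert space `H`, `dg K(H) = db K(H) = ∞`.

Definitions are in `Pool/Agent/H83/Dim/Stmt.lean` (modules, resolutions, dimensions) and
`Pool/Agent/H83/KH/Kalg.lean` (the Banach algebra `Kc H` of compact operators).

Idea of the proof: let `X` be the essential part of the dual of the right module `ℓ¹(ℕ; H*)`.
Relative to the diagonal `D` of an orthonormal basis, the module `X` has a bar-type resolution
`C_0 ← C_1 ← ⋯` whose terms are essential parts of dual modules. A finite projective resolution of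
`X` would give a module map `C_k → C_{k+1}` splitting the boundary map on cycles for some `k`.
Averaging over cyclic shifts and taking weak* limits moves such a splitting from `k + 1` to `k`;
the case `k = 0` is excluded by an estimate with random signs. -/

namespace Pool.Agent.Results.MP_216d05_an.CompactOperators

open Pool.Agent.H83 Pool.Agent.H83.KH

universe u

/-- For every infinite-dimensional complex Hilbert space `H`, the left global dimension and the
bidimension of the Banach algebra of compact operators on `H` are infinite. -/
theorem result (H : Type u) [NormedAddCommGroup H] [InnerProductSpace ℂ H] [CompleteSpace H]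
    (hH : ¬ FiniteDimensional ℂ H) :
    HD.dg (Kc H) = ⊤ ∧ HD.db (Kc H) = ⊤ :=
  ⟨dg_compacts hH, top_le_iff.1 ((dg_compacts hH).ge.trans (HD.dg_le_db (Kc H)))⟩

end Pool.Agent.Results.MP_216d05_an.CompactOperators
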